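import Pool.Agent.Helper45.T5b.Nb5
import Pool.Agent.Helper75.T5.RegVE

/-!
# T5b, line Nb5: regularity of the random windows, and the final statement
-/

set_option autoImplicit false

namespace Pool.Agent.Helper45.T5b

open Finset Pool.Agent.Helper27.T4 Pool.Agent.Helper37.T5b
open Pool.Agent.Helper5.ET (pr own pr_prime mask bb)
open Pool.Agent.Helper30.T5b (pz QF QT RT dz PZ ez NL BP)
open Pool.Agent.Helper84.T5b Pool.Agent.Helper57.T5
open Pool.Agent.Helper22.SL (PrG PrG_mono)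
open Pool.Agent.Helper50.T5 (VW lev)
open Pool.Agent.Helper45.T5
open Pool.Agent.Helper22.NEARb (Bw RegE wW lam)
open Pool.Agent.Helper44.T5b (Zw mem_Zw dvd_Zw)

variable {m k l : ℕ}

theorem Un_pos (m k l : ℕ) : 0 < Un m k l := Nat.mul_pos (Jn_pos _ _ _ _) (LQ_pos _ _ _ _)

/-- below all static levels the windows are the window set -/
theorem Bw_topB (m k l : ℕ) (w : Key → ℕ) : Bw m k l (rL m k l) w = Vw m k l w := by
  have hpos := Un_pos m k l
  have hU : Jn m k (sL m k l) l * LL (QQ m k (sL m k l)) (rL m k l) = Un m k l := rfl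
  ext b
  unfold Bw
  rw [mem_image, hU]
  constructor
  · rintro ⟨u, hu, rfl⟩
    obtain ⟨y, -, v, hv, rfl⟩ := mem_Zw.1 hu
    rw [Finset.Ico_self, Finset.sum_empty, zero_add, Nat.mul_div_cancel_left _ hpos]
    exact hv
  · intro hb
    refine ⟨Un m k l * b, mem_Zw.2 ⟨fun _ _ => 0, fun t h1 h2 => ?_, b, hb, ?_⟩, ?_⟩
    · omega
    · rw [Finset.Ico_self, Finset.sum_empty, zero_add]
    · rw [Nat.mul_div_cancel_left _ hpos]

/-- sizes of the product of the inner triples -/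
theorem exists_RT_bounds (hm : 2 ≤ m) (k : ℕ) : ∃ t0 : ℕ, ∀ t ≥ t0, 2 ^ 40 ≤ SS m t ∧
    ((16 * RT m k t + 1 : ℕ) : ℝ) ≤ Real.exp (15 * SS m t) ∧
    ((16 * RT m k t : ℕ) : ℝ) ≤ Real.exp (SS m t * lam + SS m t / 10000) ∧
    Real.exp (SS m t * lam / 2 - SS m t / 10000) ≤ ((2 ^ lev (RT m k t) : ℕ) : ℝ) := by
  have hm0 : 0 < m := by omega
  have hBP : (0 : ℝ) < BP k := by exact_mod_cast Pool.Agent.Helper30.T5b.BP_pos k
  have hBP1 : 0 ≤ Real.log (BP k) := Real.log_natCast_nonneg _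
  obtain ⟨M, hM⟩ : ∃ M : ℕ, 30000 * Real.log (BP k) + 20000 ≤ M := exists_nat_ge _
  obtain ⟨t0, h0⟩ := Pool.Agent.Helper30.T5b.exists_mul_le_SS hm0 M
  refine ⟨t0, fun t ht => ?_⟩
  have hS := h0 t ht
  have hSr : (M : ℝ) * (t + 1) ≤ SS m t := by exact_mod_cast hS
  have ht0 : (0 : ℝ) ≤ t := Nat.cast_nonneg t
  have hbig : 2 ^ 40 ≤ SS m t :=
    (Nat.pow_le_pow_right (by norm_num) (by norm_num : 40 ≤ 250)).trans (SS_ge hm0 t)
  have hbigr : (2 : ℝ) ^ 40 ≤ SS m t := by exact_mod_cast hbig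
  have hlam1 := Pool.Agent.Helper63.T5.lam_gt
  have hlam2 := Pool.Agent.Helper63.T5.lam_lt
  have hpow : Real.exp ((SS m t : ℝ) * lam) = ((10 : ℝ) ^ 6) ^ SS m t := by
    rw [Real.exp_nat_mul]
    congr 1
    exact Real.exp_log (by norm_num)
  have hRT := Pool.Agent.Helper30.T5b.RT_le hm0 k t
  have hRTr : (RT m k t : ℝ) ≤ ((10 : ℝ) ^ 6) ^ SS m t := by exact_mod_cast hRT
  have hRTpos : (0 : ℝ) < RT m k t := by exact_mod_cast Pool.Agent.Helper30.T5b.RT_pos m k t
  have h17 : (17 : ℝ) ≤ Real.exp (SS m t / 10000) := by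
    have := Real.add_one_le_exp ((SS m t : ℝ) / 10000)
    linarith
  have hone : (1 : ℝ) ≤ ((10 : ℝ) ^ 6) ^ SS m t := one_le_pow₀ (by norm_num)
  refine ⟨hbig, ?_, ?_, ?_⟩
  · push_cast
    calc (16 * RT m k t + 1 : ℝ) ≤ 17 * ((10 : ℝ) ^ 6) ^ SS m t := by linarith
      _ ≤ Real.exp (SS m t / 10000) * Real.exp ((SS m t : ℝ) * lam) := by
          rw [hpow]
          gcongr
      _ ≤ Real.exp (15 * SS m t) := by
          rw [← Real.exp_add]
          apply Real.exp_le_exp.2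
          have e4 : (SS m t : ℝ) * lam ≤ SS m t * 14 :=
            mul_le_mul_of_nonneg_left (by linarith) (by linarith)
          linarith
  · push_cast
    calc (16 * RT m k t : ℝ) ≤ 17 * ((10 : ℝ) ^ 6) ^ SS m t := by linarith
      _ ≤ Real.exp (SS m t / 10000) * Real.exp ((SS m t : ℝ) * lam) := by
          rw [hpow]
          gcongr
      _ = _ := by
          rw [← Real.exp_add]
          congr 1
          ring
  · have h1 := Pool.Agent.Helper30.T5b.le_RT_mul hm0 k t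
    have h1' : ((10 : ℝ) ^ 6) ^ SS m t ≤ RT m k t * (BP k : ℝ) ^ (3 * t) := by exact_mod_cast h1
    rw [← hpow] at h1'
    have h2 := Real.log_le_log (Real.exp_pos _) h1'
    rw [Real.log_exp, Real.log_mul hRTpos.ne' (by positivity), Real.log_pow] at h2
    push_cast at h2
    -- the logarithm of `2 ^ lev`
    have h3 := Pool.Agent.Helper75.T5.sqrt_le_lev (RT m k t)
    have h4 : Real.exp (SS m t * lam / 2 - SS m t / 10000) * 2 ≤ Real.sqrt (RT m k t) := by
      rw [Real.sqrt_eq_rpow, Real.rpow_def_of_pos hRTpos]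
      have h5 : (2 : ℝ) ≤ Real.exp 1 := by
        have := Real.add_one_le_exp (1 : ℝ)
        linarith
      calc Real.exp (SS m t * lam / 2 - SS m t / 10000) * 2
          ≤ Real.exp (SS m t * lam / 2 - SS m t / 10000) * Real.exp 1 := by gcongr
        _ = Real.exp (SS m t * lam / 2 - SS m t / 10000 + 1) := by rw [Real.exp_add]
        _ ≤ _ := by
          apply Real.exp_le_exp.2
          have e1 : (30000 * Real.log (BP k) + 20000) * ((t : ℝ) + 1) ≤ SS m t :=
            (mul_le_mul_of_nonneg_right hM (by linarith)).trans hSr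
          nlinarith
    linarith

/-- **Nb5, random windows** -/
theorem reg_rand (hm : 2 ≤ m) (k : ℕ) : ∃ K0 : ℕ, ∀ l, K0 ≤ l →
    ∀ K, keysOf m k l ⊆ K →
    PrG (Mk m k) K (fun w => ¬ RegE m k l (rL m k l) w)
      (Real.exp (-(wW m k l (rL m k l) : ℝ))) := by
  have hm0 : 0 < m := by omega
  obtain ⟨t0, h0⟩ := exists_RT_bounds hm k
  obtain ⟨l0, h1⟩ := Pool.Agent.Helper27.T5b.exists_bL hm0 k t0
  refine ⟨l0, fun l hl K hK => ?_⟩
  obtain ⟨hbb, hb⟩ := h1 l hl
  obtain ⟨g1, g2, g3, g4, g5, g6⟩ := Pool.Agent.Helper27.T5b.rL_bounds hm0 k l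
  obtain ⟨hS, hhi, -, hlo⟩ := h0 (bL m k l) hb
  have hwW : wW m k l (rL m k l) = SS m (bL m k l) := by
    unfold wW
    congr 1
    omega
  rw [hwW]
  set N := SS m (bL m k l) with hN
  have hreg := Pool.Agent.Helper75.T5.regV_abs (M := Mk m k) (Mk_pos m k) (fun L b => Key.V l L b)
    (fun L b L' b' h => by
      have h' := Key.V.inj h
      exact ⟨h'.2.1, h'.2.2⟩) (fun _ _ => rfl) (RT m k (bL m k l))
    (16 * RT m k (bL m k l)) K
    (fun v _ hv => hK (Pool.Agent.Helper54.T5b.Vkey_mem hm0 hbb hv)) (61 * N) 1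
  refine Pool.Agent.Helper75.T5.prG_of_prLe
    (Pool.Agent.Helper42.T5.Pr.PrLe_mono ?_ ?_ hreg)
  · intro r _ hn hreg2
    refine hn ⟨1, fun f n => Nat.coprime_one_right _, ?_⟩
    rw [Bw_topB, hwW]
    refine Pool.Agent.Helper75.T5.regSet_num hreg2 ?_ (Real.exp_pos _).le (Real.exp_pos _) hlo
    have hNr : (2 : ℝ) ^ 40 ≤ N := by exact_mod_cast hS
    have h4 := Real.quadratic_le_exp_of_nonneg (x := (N : ℝ) / 10000) (by positivity)
    push_cast
    have h5 : ((N : ℝ) / 10000) ^ 2 / 2 = N * (N / (2 * 10000 ^ 2)) := by ring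
    have h6 : (64 : ℝ) ≤ N / (2 * 10000 ^ 2) := by
      rw [le_div_iff₀ (by norm_num)]
      linarith
    have h7 : (0 : ℝ) ≤ (N : ℝ) / 10000 := by positivity
    have h8 : (N : ℝ) * 64 ≤ N * (N / (2 * 10000 ^ 2)) :=
      mul_le_mul_of_nonneg_left h6 (Nat.cast_nonneg _)
    linarith
  · have h1 : (((16 * RT m k (bL m k l) + 1) ^ 4 : ℕ) : ℝ) ≤ Real.exp (60 * (N : ℝ)) := by
      rw [Nat.cast_pow]
      calc (((16 * RT m k (bL m k l) + 1 : ℕ) : ℝ)) ^ 4 ≤ (Real.exp (15 * (N : ℝ))) ^ 4 :=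
            pow_le_pow_left₀ (Nat.cast_nonneg _) hhi 4
        _ = Real.exp (60 * (N : ℝ)) := by
            rw [← Real.exp_nat_mul]
            congr 1
            push_cast
            ring
    calc (((16 * RT m k (bL m k l) + 1) ^ 4 : ℕ) : ℝ) * Real.exp (-((61 * N : ℕ) : ℝ))
        ≤ Real.exp (60 * (N : ℝ)) * Real.exp (-((61 * N : ℕ) : ℝ)) :=
          mul_le_mul_of_nonneg_right h1 (Real.exp_pos _).le
      _ = Real.exp (-(N : ℝ)) := by
          rw [← Real.exp_add]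
          congr 1
          push_cast
          ring

/-- **Nb5**: regularity of all windows -/
theorem reg_all (m k : ℕ) (hm : 2 ≤ m) : ∃ K0 : ℕ, ∀ l i, K0 ≤ l → 1 ≤ i → i ≤ rL m k l →
    ∀ K, keysOf m k l ⊆ K →
    Pool.Agent.Helper22.SL.PrG (Mk m k) K (fun w => ¬ RegE m k l i w)
      (Real.exp (-(wW m k l i : ℝ))) := by
  obtain ⟨l0, h0⟩ := reg_static hm k
  obtain ⟨l1', h1⟩ := reg_rand hm k
  refine ⟨max l0 l1', fun l i hl _ hi K hK => ?_⟩
  rcases Nat.eq_or_lt_of_le hi with h | h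
  · subst h
    exact h1 l ((le_max_right _ _).trans hl) K hK
  · refine PrG_mono (fun r _ h => h) ?_ (h0 l i ((le_max_left _ _).trans hl) h K hK)
    apply Real.exp_le_exp.2
    have : (0 : ℝ) ≤ wW m k l i := Nat.cast_nonneg _
    linarith

end Pool.Agent.Helper45.T5b
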