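import Pool.Agent.Helper87.SL.Num2
import Pool.Agent.Helper63.T5.SLNumInst

/-!
# `(hL)` for windows which are regular in the form `RegE` (abstract form)
-/

set_option autoImplicit false

namespace Pool.Agent.Helper45.T5b

open Real Pool.Agent.Helper22.SL Pool.Agent.Helper87.SL Pool.Agent.Helper45.T5
open Pool.Agent.Helper63.T5 (lam lam_gt lam_lt)

theorem hL_reg {κ : Type*} {P : Pr κ} {Mk : κ → ℕ} {I : ℕ} {X Ir : ℕ → ℕ} {D W0 s s' K : ℝ}
    {N : ℕ} (h : NumL P D ((N : ℝ) * lam) W0 s s' K) (hP : P.Ok Mk) (hX : Tg P I X Ir)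
    (hh : 1 ≤ P.h) {B B' : Finset ℕ} {B0 Q Q' : ℕ}
    (hB : RegSet B Q (exp ((N : ℝ) / 10000)) (exp ((N : ℝ) * lam / 2 - (N : ℝ) / 10000)))
    (hB' : RegSet B' Q' (exp ((N : ℝ) / 10000)) (exp ((N : ℝ) * lam / 2 - (N : ℝ) / 10000)))
    (hcop : (P.F' P.h / P.M').Coprime Q') (hb' : ∀ b ∈ B', b < B0)
    (hB0 : (B0 : ℝ) ≤ exp ((N : ℝ) * lam + (N : ℝ) / 10000))
    (hD : 0.35 * ((N : ℝ) * lam) ≤ D) (hI : (I : ℝ) ≤ exp (D / 2))
    (hbig : 1000 * Real.log (1152 * K) ≤ N) :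
    PP P I X B B' * P.A P.h * P.pc P.h ≤ exp (-((N : ℝ) / 200)) := by
  have hlam1 := lam_gt
  have hN0 : (0 : ℝ) ≤ N := Nat.cast_nonneg N
  have hmain := h.hL hP hX hh (B := B) (B' := B') (B0 := B0) (η := (N : ℝ) / 10000)
    (exp_pos _).le (exp_pos _).le (by positivity) hB hB' hcop
    (by
      apply exp_le_exp.2
      linarith) (by
      apply exp_le_exp.2
      linarith) hb' hB0 hD zero_le_one (by rw [one_mul]; exact hI)
  refine hmain.trans ?_
  have hK := h.K1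
  have hlog : exp (Real.log (1152 * K)) = 1152 * K := exp_log (by positivity)
  calc 1152 * (1 * K * exp ((N : ℝ) / 10000) * exp ((N : ℝ) / 10000)) *
        exp (4 * ((N : ℝ) / 10000)) * exp (-(D / 400))
      = exp (Real.log (1152 * K)) * exp ((N : ℝ) / 10000) *
          exp ((N : ℝ) / 10000) * exp (4 * ((N : ℝ) / 10000)) * exp (-(D / 400)) := by
        rw [hlog]; ring
    _ = exp (Real.log (1152 * K) + (N : ℝ) / 10000 + (N : ℝ) / 10000 +
          4 * ((N : ℝ) / 10000) + -(D / 400)) := by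
        rw [exp_add, exp_add, exp_add, exp_add]
    _ ≤ exp (-((N : ℝ) / 200)) := by
        apply exp_le_exp.2
        have a2 : 0.35 * ((N : ℝ) * 13) ≤ D := by
          refine le_trans ?_ hD
          have : (N : ℝ) * 13 ≤ (N : ℝ) * lam := mul_le_mul_of_nonneg_left hlam1.le hN0
          linarith
        linarith

end Pool.Agent.Helper45.T5b
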