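import Pool.Agent.Helper45.T5b.HL
import Pool.Agent.Helper45.T5b.Nb6
import Pool.Agent.Helper63.T5b.NumG
import Pool.Agent.Helper22.NEARb.Stmts

/-!
# T5b, line Nb7: regular windows
-/

set_option autoImplicit false

namespace Pool.Agent.Helper45.T5b

open Finset Pool.Agent.Helper27.T4 Pool.Agent.Helper37.T5b
open Pool.Agent.Helper30.T5b (RT BP)
open Pool.Agent.Helper84.T5b Pool.Agent.Helper57.T5 Pool.Agent.Helper22.SL
open Pool.Agent.Helper22.NEARb Pool.Agent.Helper63.T5b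

variable {m k l : ℕ}

theorem RT17_le (hm : 0 < m) (k t : ℕ) :
    ((17 * RT m k t : ℕ) : ℝ) ≤ Real.exp ((SS m t : ℝ) * lam + (SS m t : ℝ) / 10000) := by
  have hRT := Pool.Agent.Helper30.T5b.RT_le hm k t
  set N := SS m t with hN
  have hpow : Real.exp ((N : ℝ) * lam) = ((10 : ℝ) ^ 6) ^ N := by
    rw [Real.exp_nat_mul]
    congr 1
    exact Real.exp_log (by norm_num)
  have hbig : 2 ^ 40 ≤ N :=
    (Nat.pow_le_pow_right (by norm_num) (by norm_num : 40 ≤ 250)).trans (SS_ge hm _)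
  have hbigr : (2 : ℝ) ^ 40 ≤ N := by exact_mod_cast hbig
  have h17 : (17 : ℝ) ≤ Real.exp ((N : ℝ) / 10000) := by
    have := Real.add_one_le_exp ((N : ℝ) / 10000)
    linarith
  have hRTr : (RT m k t : ℝ) ≤ ((10 : ℝ) ^ 6) ^ N := by exact_mod_cast hRT
  push_cast
  rw [Real.exp_add, hpow, mul_comm]
  have h0 : (0 : ℝ) ≤ RT m k t := Nat.cast_nonneg _
  gcongr

/-- the size of the last windows of a pair against a constant -/
theorem big_wW {c : ℝ} {l' i : ℕ} (hL : LateN m k c l') (h : bL m k l' ≤ sL m k l - i) :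
    c ≤ wW m k l i := by
  refine hL.c.trans ?_
  have h1 : SS m (bL m k l') ≤ wW m k l i := SS_mono m h
  exact_mod_cast h1

/-- **Nb7** -/
theorem pp_reg (m k : ℕ) (hm : 2 ≤ m) : ∃ K0 : ℕ, ∀ t l' l, K0 ≤ l' → PDb m k t l' l →
    CaseReg m k t l' l → ∀ w : Key → ℕ,
    RegE m k l (sb m k t l' l) w → RegE m k l' (sb m k t l' l) w →
    ∀ c ∈ Jx m k t l' l, PPx m k t l' l w c ≤ Real.exp (-(dReg m k t l' l)) := by
  have hm0 : 0 < m := by omega
  obtain ⟨l1, h1⟩ := exists_lateN hm k (1000 * Real.log (1152 * KB k))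
  obtain ⟨l2, h2⟩ := Bw_lt_RT hm0 k
  refine ⟨max l1 l2, fun t l' l hl' h hcase w hR hR' c hc => ?_⟩
  have hL := h1 l' ((le_max_left _ _).trans hl')
  have hb2 := h2 l' ((le_max_right _ _).trans hl')
  have hs := h.sL_eq
  have hrl := h.rL_le
  have hrb := Pool.Agent.Helper27.T5b.rL_bounds hm0 k l
  have hX := numX hm0 h hL
  have hh1 : 1 ≤ (PN m k t l' l).h := hb_pos m k t l' l
  obtain ⟨r, hr⟩ : ∃ r, (PN m k t l' l).h = r + 1 := ⟨(PN m k t l' l).h - 1, by omega⟩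
  have hNL := hX.toNum.toL hr
  have hsb : sb m k t l' l = t + (PN m k t l' l).h := rfl
  have hsb1 : sb m k t l' l ≤ rL m k l := hb_le h.tr
  obtain ⟨Q, hQ, hB⟩ := hR
  obtain ⟨Q', hQ', hB'⟩ := hR'
  rw [h.wW_eq] at hB'
  have hwB : wB m k t l (PN m k t l' l).h = (wW m k l (sb m k t l' l) : ℝ) * lam := rfl
  rw [hwB] at hNL
  have hbLs : bL m k l' ≤ sL m k l - sb m k t l' l := by
    have := h.ble
    omega
  refine hL_reg hNL (PN_ok hm0 h hL) (tgB hm0 h hL hc) hh1 hB hB'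
    (B0 := 17 * RT m k (sL m k l' - sb m k t l' l)) ?_
    (fun b hb => hb2 _ (by have := h.t1; omega) (by omega) w b hb) ?_ ?_ (IJ_le' hm0 h hL.bb |>
      le_trans (by exact_mod_cast Pool.Agent.Helper39.SL.nT_le _ _ _ _ _ _)) (big_wW hL hbLs)
  · rw [F'_div hm0 h]
    unfold NN
    refine Nat.Coprime.prod_left fun i _ => ?_
    rw [← hs]
    exact hQ' i _
  · rw [hs]
    exact RT17_le hm0 k _
  · have h7 : 7 * (wW m k l (sb m k t l' l) : ℝ) ≤ 20 * ((l - l' : ℕ) : ℝ) := by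
      exact_mod_cast hcase
    have h8 := lg_ge m k h.le
    have hlam1 := Pool.Agent.Helper63.T5.lam_gt
    have hlam0 : (0 : ℝ) ≤ Pool.Agent.Helper63.T5.lam := by linarith
    calc 0.35 * ((wW m k l (sb m k t l' l) : ℝ) * Pool.Agent.Helper63.T5.lam)
        = (0.35 * (wW m k l (sb m k t l' l) : ℝ)) * Pool.Agent.Helper63.T5.lam := by ring
      _ ≤ ((l - l' : ℕ) : ℝ) * Pool.Agent.Helper63.T5.lam :=
          mul_le_mul_of_nonneg_right (by linarith) hlam0
      _ ≤ _ := h8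

end Pool.Agent.Helper45.T5b
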