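import Pool.Agent.Helper45.T5b.Outer
import Pool.Agent.Helper45.T5b.Nb6
import Pool.Agent.Helper31.T5.Arcs
import Pool.Agent.Helper3.T5b.MidDefs

/-!
# T5b, line 8 (P4): few pairs of rests have a sum in an interval
-/

set_option autoImplicit false

namespace Pool.Agent.Helper45.T5b

open Finset Pool.Agent.Helper27.T4 Pool.Agent.Helper37.T5b
open Pool.Agent.Helper5.ET (pr own pr_prime mask bb era)
open Pool.Agent.Helper30.T5b (pz QF QT RT dz PZ ez NL BP)
open Pool.Agent.Helper84.T5b Pool.Agent.Helper57.T5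
open Pool.Agent.Helper22.SL (PrG PrG_mono)
open Pool.Agent.Helper45.T5
open Pool.Agent.Helper3.T5b (Rest rst GoodM)

variable {m k l : ℕ}

/-- the bound for the number of pairs of rests (`s = sL m k l`, `N₀ = Jn m k s l'`,
`N = Jn m k s l`, `Ne = FF m k l 0`, `Ne' = FF m k l' 0`, `V = 17 RT m k s`, `Q = QQ m k s 0`) -/
noncomputable def FE (m k l' l : ℕ) : ℝ :=
  ((10 ^ 6) ^ (2 * SS m (sL m k l - 1)) *
    (1 + ((2 * ((FF m k l 0 : ℝ) / Jn m k (sL m k l) l') + (17 * RT m k (sL m k l) : ℕ)) /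
      ((Jn m k (sL m k l) l : ℝ) / Jn m k (sL m k l) l') + 2) /
        Real.sqrt (QQ m k (sL m k l) 0))) *
  ((10 ^ 6) ^ (2 * SS m (sL m k l - 1)) *
    (1 + min (2 * ((FF m k l 0 : ℝ) / Jn m k (sL m k l) l')) (17 * RT m k (sL m k l) : ℕ) /
      ((FF m k l' 0 : ℝ) / Jn m k (sL m k l) l' * Real.sqrt (QQ m k (sL m k l) 0))))

/-- few pairs of rests have a sum in an interval and in a class modulo `FF m k l' 0`, for all outer
keys of the two states -/
def GoodC (m k l l' E1 : ℕ) (w : Key → ℕ) : Prop :=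
  ∀ n a, ∀ x ∈ XJ m k l, ∀ x' ∈ XJ m k l',
    ((Rest m k l w (okey m k l 0 x) ×ˢ Rest m k l' w (okey m k l' 0 x')).filter
      (fun q => (q.1 + q.2 ≤ n ∧ n < q.1 + q.2 + 2 * FF m k l 0) ∧
        q.1 + q.2 ≡ a [MOD FF m k l' 0])).card ≤ E1

section arcs

open Pool.Agent.Helper87.L3

/-- the pairs are triples with one label -/
theorem pairs_le_trip {N' q E n h a : ℕ} (hN' : 0 < N') (hq : 0 < q) (B B' U U' : Finset ℕ)
    (hB : ∀ b ∈ B, ∃ u ∈ U, b = q * N' * u) (hB' : ∀ b ∈ B', ∃ u ∈ U', b = N' * u) :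
    ((B ×ˢ B').filter (fun z => (z.1 + z.2 ≤ n ∧ n < z.1 + z.2 + 2 * (N' * E)) ∧
      z.1 + z.2 ≡ a [MOD N' * h])).card ≤
      (trip {()} U U' (fun _ => a / N') q h (n / N' + 1 - 2 * E) (2 * E)).card := by
  refine card_le_card_of_injOn (fun z => ((), (z.1 / (q * N'), z.2 / N'))) ?_ ?_
  · rintro ⟨b, b'⟩ hz
    rw [Finset.mem_coe, mem_filter, mem_product] at hz
    obtain ⟨⟨hb, hb'⟩, ⟨h1, h2⟩, h0⟩ := hz
    obtain ⟨u, hu, rfl⟩ := hB b hb
    obtain ⟨u', hu', rfl⟩ := hB' b' hb'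
    have e1 : q * N' * u / (q * N') = u := Nat.mul_div_cancel_left _ (Nat.mul_pos hq hN')
    have e2 : N' * u' / N' = u' := Nat.mul_div_cancel_left _ hN'
    simp only [e1, e2] at h1 h2 h0 ⊢
    rw [Finset.mem_coe, trip, mem_filter, mem_product, mem_product]
    have h3 : q * N' * u + N' * u' = N' * (q * u + u') := by ring
    rw [h3] at h1 h2 h0
    have h4 : q * u + u' ≤ n / N' := by
      rw [Nat.le_div_iff_mul_le hN']
      calc (q * u + u') * N' = N' * (q * u + u') := by ring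
        _ ≤ n := h1
    have h5 : n / N' < q * u + u' + 2 * E := by
      apply Nat.div_lt_of_lt_mul
      calc n < N' * (q * u + u') + 2 * (N' * E) := h2
        _ = N' * (q * u + u' + 2 * E) := by ring
    have h6 : N' ∣ a := (h0.dvd_iff (dvd_mul_right _ _)).1 (dvd_mul_right _ _)
    have h7 : q * u + u' ≡ a / N' [MOD h] := by
      obtain ⟨a', rfl⟩ := h6
      rw [Nat.mul_div_cancel_left _ hN']
      exact Nat.ModEq.mul_left_cancel' hN'.ne' h0
    refine ⟨⟨mem_singleton_self _, hu, hu'⟩, ⟨?_, ?_⟩, h7⟩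
    · simp only
      omega
    · simp only
      omega
  · rintro ⟨b, b'⟩ hz ⟨c, c'⟩ hy hzy
    rw [Finset.mem_coe, mem_filter, mem_product] at hz hy
    obtain ⟨u, hu, rfl⟩ := hB b hz.1.1
    obtain ⟨u', hu', rfl⟩ := hB' b' hz.1.2
    obtain ⟨v, hv, rfl⟩ := hB c hy.1.1
    obtain ⟨v', hv', rfl⟩ := hB' c' hy.1.2
    simp only [Prod.mk.injEq, true_and] at hzy
    rw [Nat.mul_div_cancel_left _ (Nat.mul_pos hq hN'), Nat.mul_div_cancel_left _
      (Nat.mul_pos hq hN'), Nat.mul_div_cancel_left _ hN', Nat.mul_div_cancel_left _ hN'] at hzy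
    rw [hzy.1, hzy.2]

theorem reg_arcc {U : Finset ℕ} {Q g : ℕ} {R w : ℝ} (h : RegSet U Q R w) (hg : 0 < g)
    (hgQ : g.Coprime Q) (a L c : ℕ) : ((arcc U a L c g).card : ℝ) ≤ R * (1 + L / ((g : ℝ) * w)) := by
  refine le_trans (le_of_eq ?_) (h g hg hgQ a L c)
  rw [arcc]
  congr 2
  refine Finset.filter_congr fun b _ => ?_
  simp only [Nat.ModEq, and_assoc]

/-- **two arcs, one after the other, in a class** -/
theorem arcs_cardC {N0 N Ne Ne' n a V Q Q' : ℕ} {R R' w w' : ℝ} (hN0 : 0 < N0) (hN : 0 < N)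
    (hNN : N0 ∣ N) (hNe : N0 ∣ Ne) (hNe' : N0 ∣ Ne') (hNe0 : 0 < Ne')
    (B B' U U' : Finset ℕ) (hB : ∀ b ∈ B, ∃ u ∈ U, b = N * u) (hB' : ∀ b ∈ B', ∃ u ∈ U', b = N0 * u)
    (hU : RegSet U Q R w) (hU' : RegSet U' Q' R' w') (hV : ∀ u ∈ U', u < V)
    (hcop : (Ne' / N0).Coprime Q')
    (hR : 0 ≤ R) (hR' : 0 ≤ R') (hw : 0 < w) (hw' : 0 < w') :
    (((B ×ˢ B').filter (fun z => (z.1 + z.2 ≤ n ∧ n < z.1 + z.2 + 2 * Ne) ∧
      z.1 + z.2 ≡ a [MOD Ne'])).card : ℝ) ≤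
      (R * (1 + ((2 * ((Ne : ℝ) / N0) + V) / ((N : ℝ) / N0) + 2) / w)) *
        (R' * (1 + min (2 * ((Ne : ℝ) / N0)) V / ((Ne' : ℝ) / N0 * w'))) := by
  obtain ⟨q, rfl⟩ := hNN
  obtain ⟨E, rfl⟩ := hNe
  obtain ⟨h, rfl⟩ := hNe'
  have hq : 0 < q := Nat.pos_of_mul_pos_left hN
  have hh : 0 < h := Nat.pos_of_mul_pos_left hNe0
  rw [Nat.mul_div_cancel_left _ hN0] at hcop
  have h1 := pairs_le_trip (N' := N0) (q := q) (E := E) (n := n) (h := h) (a := a) hN0 hq B B' U U'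
    (fun b hb => by
      obtain ⟨u, hu, e⟩ := hB b hb
      exact ⟨u, hu, by rw [e, mul_comm N0 q]⟩) hB'
  have h2 := trip_card ({()} : Finset Unit) U U' (fun _ => a / N0) q h (n / N0 + 1 - 2 * E) (2 * E)
    V hq hh hV R R' w w' hR (fun a L => hU.arc a L) hw (fun a L c => reg_arcc hU' hh hcop a L c)
    hw' hR'
  have h3 := (Nat.cast_le (α := ℝ)).2 h1
  refine h3.trans (h2.trans (le_of_eq ?_))
  have hN0r : (N0 : ℝ) ≠ 0 := by exact_mod_cast hN0.ne'
  have e1 : (((N0 * q : ℕ) : ℝ)) / N0 = q := by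
    push_cast
    field_simp
  have e2 : (((N0 * E : ℕ) : ℝ)) / N0 = E := by
    push_cast
    field_simp
  have e3 : (((N0 * h : ℕ) : ℝ)) / N0 = h := by
    push_cast
    field_simp
  rw [e1, e2, e3]
  push_cast
  rw [card_singleton]
  push_cast
  ring

end arcs

theorem LL_zero' (f : ℕ → ℕ) : LL f 0 = 1 := by
  unfold LL
  simp

/-- the windows of a state -/
noncomputable def UW (m k l : ℕ) (w : Key → ℕ) (o : JF → ℕ) : Finset ℕ :=
  (Rest m k l w o).image (fun b => b / Jn m k (sL m k l) l)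

theorem rest_form {w : Key → ℕ} {x : JF → ℕ} {b : ℕ}
    (hb : b ∈ Rest m k l w (okey m k l 0 x)) : ∃ y : ℕ → Fin 3 → ℕ,
      (∀ t, 0 ≤ t → t < rL m k l → y t ∈ Ys m k l t) ∧ ∃ v ∈ Vw m k l w,
      b = ∑ t ∈ Ico 0 (rL m k l), cs m k l t w (okey m k l t x) (y t) + Un m k l * v := by
  unfold Rest at hb
  rw [mem_image] at hb
  obtain ⟨⟨y, u⟩, hq, rfl⟩ := hb
  rw [mem_product, Fintype.mem_piFinset, mem_image] at hq
  obtain ⟨hy, v, hv, hvu⟩ := hq
  simp only at hvu hy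
  refine ⟨fun t => if h : t < rL m k l then y ⟨t, h⟩ else 0, fun t _ ht => ?_, v, hv, ?_⟩
  · simp only [dif_pos ht]
    exact hy ⟨t, ht⟩
  · unfold rst
    rw [← hvu]
    simp only
    congr 1
    rw [← Finset.range_eq_Ico]
    rw [← Fin.sum_univ_eq_sum_range (fun t => cs m k l t w (okey m k l t x)
      (if h : t < rL m k l then y ⟨t, h⟩ else 0))]
    refine Finset.sum_congr rfl fun t _ => ?_
    simp only [dif_pos t.2]
    have e : okey m k l (t : ℕ) x = if (t : ℕ) = 0 then okey m k l 0 x else 0 :=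
      Pool.Agent.Helper3.T5b.okey_eq m k l t x
    rw [e]

theorem dvd_rest (hm : 0 < m) {w : Key → ℕ} {x : JF → ℕ} {b : ℕ}
    (hb : b ∈ Rest m k l w (okey m k l 0 x)) : Jn m k (sL m k l) l ∣ b := by
  obtain ⟨y, hy, v, hv, rfl⟩ := rest_form hb
  refine dvd_add (Finset.dvd_sum fun t ht => ?_) ?_
  · rw [mem_Ico] at ht
    refine dvd_trans ?_ (cs_dvd m k l t w (okey m k l t x) (y t))
    refine dvd_mul_of_dvd_left ?_ _
    exact Jn_dvd m k (sL m k l) (Pool.Agent.Helper27.T5b.ef_bounds hm k l (t + 1)).1.le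
  · refine dvd_mul_of_dvd_left ?_ _
    exact dvd_mul_right _ _

theorem isWinB_UW (hm : 0 < m) {w : Key → ℕ} {x : JF → ℕ} {u : ℕ}
    (hu : u ∈ UW m k l w (okey m k l 0 x)) :
    IsWinB m k l 0 w (fun t => okey m k l t x) u := by
  unfold UW at hu
  rw [mem_image] at hu
  obtain ⟨b, hb, rfl⟩ := hu
  have h1 := dvd_rest hm hb
  obtain ⟨y, hy, v, hv, he⟩ := rest_form hb
  refine ⟨y, hy, v, hv, ?_⟩
  rw [LL_zero', mul_one, Nat.mul_div_cancel' h1, he]

theorem UW_lt (hm : 0 < m) (k : ℕ) : ∃ l0 : ℕ, ∀ l ≥ l0, ∀ w : Key → ℕ, ∀ x : JF → ℕ,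
    ∀ u ∈ UW m k l w (okey m k l 0 x), u < 17 * RT m k (sL m k l) := by
  obtain ⟨l1, h1⟩ := Pool.Agent.Helper27.T5b.exists_dbl hm k
  obtain ⟨l2, h2⟩ := Pool.Agent.Helper27.T5b.exists_bL hm k 0
  refine ⟨max l1 l2, fun l hl w x u hu => ?_⟩
  obtain ⟨hbb, -⟩ := h2 l ((le_max_right _ _).trans hl)
  obtain ⟨hdb, hNL⟩ := h1 l ((le_max_left _ _).trans hl)
  have hdb' : ∀ t < rL m k l, 2 * (FF m k l t * LL (QQ m k (sL m k l)) t) ≤
      FF m k l (t + 1) * LL (QQ m k (sL m k l)) (t + 1) := hdb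
  obtain ⟨y, hy, v, hv, hbv⟩ := isWinB_UW hm hu
  have h3 := sum_cs_le hdb' w (fun t => okey m k l t x) y (rL m k l) le_rfl
  have hv2 : v < 16 * RT m k (bL m k l) := by
    unfold Vw Pool.Agent.Helper50.T5.VW at hv
    rw [mem_filter, mem_Ico] at hv
    exact hv.1.2
  have h5 : Un m k l * v < Un m k l * (16 * RT m k (bL m k l)) :=
    Nat.mul_lt_mul_of_pos_left hv2 (Un_pos m k l)
  have h6 := Pool.Agent.Helper27.T5b.Un_mul_RT hm hbb
  have h7 := Pool.Agent.Helper27.T5b.Jn_mul_RT (Pool.Agent.Helper27.T5b.cpl_self hm hbb)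
  rw [LL_zero', mul_one, ← Finset.range_eq_Ico] at hbv
  have hbv : Jn m k (sL m k l) l * u =
    ∑ t ∈ range (rL m k l), cs m k l t w (okey m k l t x) (y t) + Un m k l * v := hbv
  have h8 : Jn m k (sL m k l) l * u < Jn m k (sL m k l) l * (17 * RT m k (sL m k l)) := by
    have e1 : Un m k l * (16 * RT m k (bL m k l)) = 16 * NL m k l := by
      rw [← h6]
      ring
    have e2 : Jn m k (sL m k l) l * (17 * RT m k (sL m k l)) = 17 * NL m k l := by
      rw [← h7]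
      ring
    rw [hbv, e2]
    have h3' : ∑ t ∈ range (rL m k l), cs m k l t w (okey m k l t x) (y t) ≤
      2 * (FF m k l (rL m k l) * LL (QQ m k (sL m k l)) (rL m k l)) := h3
    omega
  exact Nat.lt_of_mul_lt_mul_left h8

/-- **line 8 (P4)** -/
theorem good_rest (hm : 2 ≤ m) (hk : 1 ≤ k) : ∃ l0 : ℕ, ∀ l' l, l0 ≤ l' → l' ≤ l →
    Same m k l' l → ∀ K, keysOf m k l ⊆ K → keysOf m k l' ⊆ K →
    PrG (Mk m k) K (fun w => ¬ GoodC m k l l' ⌊FE m k l' l⌋₊ w)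
      (Real.exp (-(SS m (sL m k l) : ℝ))) := by
  have hm0 : 0 < m := by omega
  obtain ⟨l1, h1⟩ := reg_okey hm k
  obtain ⟨l2, h2⟩ := UW_lt hm0 k
  obtain ⟨l3, h3⟩ := Pool.Agent.Helper27.T5b.exists_bL hm0 k 0
  refine ⟨max l1 (max l2 l3), fun l' l hl hll hsame K hK hK' => ?_⟩
  simp only [max_le_iff] at hl
  have hs : sL m k l' = sL m k l := hsame
  have hkey : ∀ l, bb 0 ≤ mL m k l → keysOf m k l ⊆ K → ∀ x ∈ XJ m k l, ∀ i,
      ∀ y ∈ Ys m k l 0, (Ss m k l 0 (okey m k l 0 x)).key i y ∈ K := by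
    intro l hbb hK x hx i y hy
    obtain ⟨g1, g2, g3, g4, g5, g6⟩ := Pool.Agent.Helper27.T5b.rL_bounds hm0 k l
    exact hK (Pool.Agent.Helper54.T5b.Skey_mem hm0 hbb (by omega)
      (Pool.Agent.Helper54.T5b.okey_lt hm0 hbb hx 0) hy i)
  have hr : ∀ l, 0 < rL m k l := by
    intro l
    obtain ⟨g1, g2, g3, g4, g5, g6⟩ := Pool.Agent.Helper27.T5b.rL_bounds hm0 k l
    omega
  have a1 := h1 l (by omega) 0 (hr l) K (hkey l (h3 l (by omega)).1 hK)
  have a2 := h1 l' (by omega) 0 (hr l') K (hkey l' (h3 l' (by omega)).1 hK')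
  refine PrG_mono ?_ ?_ (Pool.Agent.Helper22.SL.PrG_or a1 a2)
  · intro r _ hn
    by_contra hcon
    push Not at hcon
    obtain ⟨b1, b2⟩ := hcon
    refine hn fun n a x hx x' hx' => ?_
    refine Nat.le_floor ?_
    have c1 := b1 x hx (UW m k l _ (okey m k l 0 x)) fun b hb => isWinB_UW hm0 hb
    have c2 := b2 x' hx' (UW m k l' _ (okey m k l' 0 x')) fun b hb => isWinB_UW hm0 hb
    rw [hs] at c2
    have hQ : (0 : ℝ) < Real.sqrt (QQ m k (sL m k l) 0) := by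
      apply Real.sqrt_pos.2
      exact_mod_cast QQ_pos m k (sL m k l) 0
    have hJd : Jn m k (sL m k l) l' ∣ Jn m k (sL m k l) l := Jn_dvd m k (sL m k l) hll
    have hJF : Jn m k (sL m k l) l' ∣ FF m k l 0 :=
      Jn_dvd m k (sL m k l) (hll.trans (Pool.Agent.Helper27.T5b.ef_bounds hm0 k l 0).1.le)
    have hFs : FF m k l' 0 = Jn m k (sL m k l) (ef m k l' 0) := by
      unfold FF
      rw [hs]
    have hJF' : Jn m k (sL m k l) l' ∣ FF m k l' 0 := by
      rw [hFs]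
      exact Jn_dvd m k (sL m k l) (Pool.Agent.Helper27.T5b.ef_bounds hm0 k l' 0).1.le
    have hcop : (FF m k l' 0 / Jn m k (sL m k l) l').Coprime (QQ m k (sL m k l) 0) := by
      refine Nat.Coprime.coprime_dvd_left (Nat.div_dvd_of_dvd hJF') ?_
      rw [hFs]
      unfold QQ QT
      refine Nat.Coprime.prod_right fun g _ => ?_
      unfold QF
      refine Nat.Coprime.pow_right _ ?_
      exact Jn_cop (by omega) (Nat.zero_le _) _ g
    exact arcs_cardC (n := n) (a := a) (Jn_pos m k (sL m k l) l') (Jn_pos m k (sL m k l) l) hJd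
      hJF hJF' (FF_pos m k l' 0)
      (Rest m k l _ (okey m k l 0 x)) (Rest m k l' _ (okey m k l' 0 x'))
      (UW m k l _ (okey m k l 0 x)) (UW m k l' _ (okey m k l' 0 x')) (by
        intro b hb
        refine ⟨_, mem_image_of_mem _ hb, ?_⟩
        rw [Nat.mul_div_cancel' (dvd_rest hm0 hb)]) (by
        intro b hb
        refine ⟨_, mem_image_of_mem _ hb, ?_⟩
        have := dvd_rest hm0 hb
        rw [hs] at this ⊢
        rw [Nat.mul_div_cancel' this]) c1 c2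
      (fun u hu => by
        have := h2 l' (by omega) _ x' u hu
        rwa [hs] at this) hcop (by positivity) (by positivity) hQ hQ
  · have hSS : (SS m (sL m k l) : ℝ) ≤ SS m (sL m k l - 0 + 1) := by
      exact_mod_cast SS_mono m (by omega)
    have hpos : (1 : ℝ) ≤ SS m (sL m k l) := by exact_mod_cast SS_pos m _
    rw [hs]
    have e1 : Real.exp (-(2 * (SS m (sL m k l - 0 + 1) : ℝ))) ≤
        Real.exp (-(2 * (SS m (sL m k l) : ℝ))) := Real.exp_le_exp.2 (by linarith)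
    have e2 : Real.exp (-(2 * (SS m (sL m k l) : ℝ))) * 2 ≤ Real.exp (-(SS m (sL m k l) : ℝ)) := by
      have h2 : (2 : ℝ) ≤ Real.exp (SS m (sL m k l)) := by
        have := Real.add_one_le_exp (SS m (sL m k l) : ℝ)
        linarith
      calc Real.exp (-(2 * (SS m (sL m k l) : ℝ))) * 2 ≤
          Real.exp (-(2 * (SS m (sL m k l) : ℝ))) * Real.exp (SS m (sL m k l)) := by gcongr
        _ = _ := by
          rw [← Real.exp_add]
          congr 1
          ring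
    linarith

end Pool.Agent.Helper45.T5b
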