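import Pool.Agent.Helper45.T5b.RegB
import Pool.Agent.Helper37.T5b.Prod

/-!
# T5b: the number of outer keys; regularity for all outer keys of a state
-/

set_option autoImplicit false

namespace Pool.Agent.Helper45.T5b

open Finset Pool.Agent.Helper27.T4 Pool.Agent.Helper27.T5b Pool.Agent.Helper37.T5b
open Pool.Agent.Helper5.ET (pr own pr_prime mask bb era)
open Pool.Agent.Helper30.T5b (pz QF QT RT dz PZ ez NL BP)
open Pool.Agent.Helper84.T5b Pool.Agent.Helper57.T5 Pool.Agent.Helper22.SL
open Pool.Agent.Helper39.T5 Pool.Agent.Helper45.T5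
open Pool.Agent.Helper27.T5 (gw)

variable {m k l : ℕ}

/-- the borders grow exponentially -/
theorem two_pow_le_bb (j : ℕ) : 2 ^ (j / 2) ≤ bb j := by
  have h2 : ∀ j, 2 * bb j ≤ bb (j + 2) := by
    intro j
    have a1 := len_bounds j
    have a2 := len_bounds (j + 1)
    have a3 := bb_add_len j
    have a4 := bb_add_len (j + 1)
    have a5 := bb_ge_pow j
    have e : j + 1 + 1 = j + 2 := rfl
    rw [e] at a4
    omega
  induction j using Nat.strong_induction_on with
  | _ j ih =>
    rcases Nat.lt_or_ge j 2 with h | h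
    · have : j / 2 = 0 := by omega
      rw [this, pow_zero]
      have := bb_ge_pow j
      omega
    · obtain ⟨i, rfl⟩ : ∃ i, j = i + 2 := ⟨j - 2, by omega⟩
      have a1 := ih i (by omega)
      have a2 := h2 i
      have e : (i + 2) / 2 = i / 2 + 1 := by omega
      rw [e, pow_succ]
      omega

theorem aa_succ_le (hm : 2 ≤ m) (t : ℕ) : aa m (t + 1) ≤ 2 * aa m t := by
  rw [aa_succ]
  have h1 := aa_ge' (m := m) (by omega) t
  have h2 : aa m t / m ≤ aa m t / 2 := Nat.div_le_div_left hm (by norm_num)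
  omega

/-- the number of eras is small -/
theorem era_le (hm : 2 ≤ m) {y : ℕ} (hy : bb 0 ≤ y) :
    era y + 1 ≤ 2 ^ (aa m (sv m k y) / m + 1) := by
  obtain ⟨s, hs⟩ : ∃ s, sv m k y = s := ⟨_, rfl⟩
  have h1 := Pool.Agent.Helper30.T5b.lt_SS (m := m) (by omega) k hy
  have h2 := (era_spec y hy).1
  have h3 := two_pow_le_bb (era y)
  rw [hs] at h1 ⊢
  have h4 : 2 ^ (era y / 2) < 2 ^ (aa m (s + 2) + 2) := by
    calc 2 ^ (era y / 2) ≤ y := h3.trans h2
      _ < 4 * SS m (s + 2) := h1
      _ = 2 ^ (aa m (s + 2) + 2) := by unfold SS; rw [pow_add]; ring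
  have h5 : era y / 2 < aa m (s + 2) + 2 := (Nat.pow_lt_pow_iff_right (by norm_num)).1 h4
  have h6 := aa_succ_le hm s
  have h7 := aa_succ_le hm (s + 1)
  have e : s + 1 + 1 = s + 2 := rfl
  rw [e] at h7
  have h8 : era y + 1 ≤ 8 * aa m s + 5 := by omega
  -- `x = aa m s / m`
  obtain ⟨x, hx⟩ : ∃ x, aa m s / m = x := ⟨_, rfl⟩
  have h9 := aa_div_ge (m := m) (by omega) s
  have h10 : aa m s < m * (x + 1) := by
    rw [← hx]
    exact Nat.lt_mul_div_succ _ (by omega)
  rw [hx] at h9 ⊢
  have h11 : 8 * aa m s + 5 ≤ x ^ 2 := by nlinarith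
  have h12 : x ^ 2 ≤ 2 ^ (x + 1) := by
    have : ∀ x : ℕ, 4 ≤ x → x ^ 2 ≤ 2 ^ x := by
      intro x hx
      induction x, hx using Nat.le_induction with
      | base => norm_num
      | succ x hx ih =>
        rw [pow_succ 2 x]
        nlinarith
    refine (this x (by omega)).trans (Nat.pow_le_pow_right (by norm_num) (Nat.le_succ x))
  omega

/-- number of buffer digits below a late state -/
theorem ct_none_le_SS (hm : 2 ≤ m) (hl : bb 0 ≤ mL m k l) (hs : 1 ≤ sL m k l) :
    ct (ins m k) own (ex m k) (Sum.inr none) l ≤ SS m (sL m k l + 1) := by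
  have hm0 : 0 < m := by omega
  have h1 := ct_none_le (k := k) hm0 (l := l) hl
  obtain ⟨u, hu⟩ : ∃ u, sL m k l = u + 1 := ⟨sL m k l - 1, by omega⟩
  have hsv : sv m k (l1 (ins m k) l) = u + 1 := hu
  have h2 : ∀ j ∈ range (era (l1 (ins m k) l) + 1), RB m (lv m k j) ≤ SS m u := by
    intro j hj
    rw [mem_range] at hj
    have a1 : lv m k j ≤ u + 1 := by
      rw [← hsv]
      exact (lv_mono hm0 k (by omega)).trans (lv_le_sv m k _)
    have a2 : SS m (lv m k j - 1) ≤ SS m u := SS_mono m (by omega)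
    unfold RB
    have a3 := Nat.div_mul_le_self (SS m (lv m k j - 1)) (2 ^ 9)
    norm_num at a3 ⊢
    omega
  have h3 := h1.trans (Finset.sum_le_card_nsmul _ _ _ h2)
  rw [card_range, smul_eq_mul] at h3
  have h4 := era_le (k := k) hm hl
  have h5 : sv m k (mL m k l) = u + 1 := hu
  rw [h5] at h4
  rw [hu]
  have h6 : SS m (u + 1 + 1) = SS m (u + 1) * 2 ^ (aa m (u + 1) / m + 1) := SS_succ m (u + 1)
  rw [h6]
  have h7 : SS m u ≤ SS m (u + 1) := SS_mono m (Nat.le_succ u)
  calc ct (ins m k) own (ex m k) (Sum.inr none) l ≤ (era (mL m k l) + 1) * SS m u := h3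
    _ ≤ 2 ^ (aa m (u + 1) / m + 1) * SS m (u + 1) := Nat.mul_le_mul h4 h7
    _ = _ := mul_comm _ _

open Classical in
/-- the outer keys of the level `t` -/
noncomputable def OK (m k l t : ℕ) : Finset (JF → ℕ) := (XJ m k l).image (okey m k l t)

theorem card_OK (hm : 2 ≤ m) (hl : bb 0 ≤ mL m k l) (hs : 1 ≤ sL m k l) (t : ℕ) :
    ((OK m k l t).card : ℝ) ≤ Real.exp (28 * (SS m (sL m k l - t + 1) : ℝ)) := by
  classical
  have hm0 : 0 < m := by omega
  rcases Nat.eq_zero_or_pos t with ht | ht
  · subst ht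
    rw [Nat.sub_zero]
    -- a box
    set c : JF → ℕ := fun i => if i.isRight then pJ k (sL m k l) i ^ aJ m k (sL m k l) l i else 1
      with hc
    have hsub : OK m k l 0 ⊆ Fintype.piFinset (fun i : JF => if i ∈ okeyF m k l then
        (if aJ m k (sL m k l) l i = 0 then {1}
          else T1 (pJ k (sL m k l) i) (aJ m k (sL m k l) l i)) else {0}) := by
      intro o ho
      unfold OK at ho
      rw [mem_image] at ho
      obtain ⟨x, hx, rfl⟩ := ho
      rw [Fintype.mem_piFinset]
      intro i
      unfold XJ at hx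
      rw [Fintype.mem_piFinset] at hx
      have h1 := hx i
      unfold okey maskJ
      rw [if_pos rfl]
      by_cases hi : i ∈ okeyF m k l
      · simp only [if_pos hi]
        exact h1
      · simp only [if_neg hi]
        exact mem_singleton_self 0
    have h1 : (OK m k l 0).card ≤ ∏ i : JF, c i := by
      refine (card_le_card hsub).trans ?_
      rw [Fintype.card_piFinset]
      refine Finset.prod_le_prod' fun i _ => ?_
      by_cases hi : i ∈ okeyF m k l
      · rw [if_pos hi]
        have hR : i.isRight := by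
          unfold okeyF at hi
          split_ifs at hi
          · exact (mem_filter.1 hi).2
          · rw [mem_singleton] at hi
            rw [hi]
            rfl
        rw [hc]
        simp only [if_pos hR]
        split_ifs with ha
        · rw [ha, pow_zero, card_singleton]
        · refine (card_filter_le _ _).trans ?_
          rw [card_range]
      · rw [if_neg hi, card_singleton, hc]
        simp only
        split_ifs
        · exact Nat.one_le_iff_ne_zero.2 (pow_pos (pJ_prime k _ i).pos _).ne'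
        · exact le_rfl
    have h2 : ∏ i : JF, c i = 1000039 ^ ct (ins m k) own (ex m k) (Sum.inr none) l *
        ∏ f : Fin 3, pz k (sL m k l + 1) f ^
          ct (ins m k) own (ex m k) (Sum.inr (some (sL m k l + 1, f))) l := by
      rw [Fintype.prod_sum_type, Fin.prod_univ_succ (n := 3)]
      have e1 : ∏ a : Fin 3, c (Sum.inl a) = 1 := by
        refine Finset.prod_eq_one fun a _ => ?_
        rw [hc]
        simp
      rw [e1, one_mul]
      rfl
    have h3 : ∏ f : Fin 3, pz k (sL m k l + 1) f ^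
          ct (ins m k) own (ex m k) (Sum.inr (some (sL m k l + 1, f))) l ≤
        (10 ^ 6) ^ SS m (sL m k l + 1) := by
      calc ∏ f : Fin 3, pz k (sL m k l + 1) f ^
          ct (ins m k) own (ex m k) (Sum.inr (some (sL m k l + 1, f))) l
          ≤ QT m k (sL m k l + 1) := by
            unfold QT QF
            refine Finset.prod_le_prod' fun f _ => ?_
            exact Nat.pow_le_pow_right (Pool.Agent.Helper30.T5b.pz_pos _ _ _)
              (ct_some_le_zf hm0 _ f l)
        _ ≤ (10 ^ 6) ^ Sg m (sL m k l + 1) := Pool.Agent.Helper30.T5b.QT_le hm0 k _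
        _ ≤ _ := Nat.pow_le_pow_right (by norm_num) (Sg_le m _)
    have h4 := ct_none_le_SS (k := k) hm hl hs
    have h5 : (OK m k l 0).card ≤ 1000039 ^ SS m (sL m k l + 1) *
        (10 ^ 6) ^ SS m (sL m k l + 1) := by
      rw [h2] at h1
      refine h1.trans (Nat.mul_le_mul ?_ h3)
      exact Nat.pow_le_pow_right (by norm_num) h4
    generalize SS m (sL m k l + 1) = W at *
    have h6 : ((OK m k l 0).card : ℝ) ≤ (1000039 : ℝ) ^ W * (10 ^ 6) ^ W := by exact_mod_cast h5
    refine h6.trans ?_
    have h7 : (1000039 : ℝ) ≤ Real.exp 14 := by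
      have e1 : Real.exp 14 = Real.exp 1 ^ 14 := by rw [← Real.exp_nat_mul]; norm_num
      rw [e1]
      have e2 := Real.exp_one_gt_d9
      calc (1000039 : ℝ) ≤ 2.7182818283 ^ 14 := by norm_num
        _ ≤ _ := by gcongr
    calc (1000039 : ℝ) ^ W * (10 ^ 6) ^ W ≤ Real.exp 14 ^ W * Real.exp 14 ^ W := by
          gcongr
          exact le_trans (by norm_num) h7
      _ = Real.exp (28 * W) := by
          rw [← Real.exp_nat_mul, ← Real.exp_add]
          congr 1
          ring
  · have h1 : OK m k l t ⊆ {0} := by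
      intro o ho
      unfold OK at ho
      rw [mem_image] at ho
      obtain ⟨x, hx, rfl⟩ := ho
      unfold okey
      rw [if_neg (by omega)]
      exact mem_singleton_self 0
    have h2 := card_le_card h1
    rw [card_singleton] at h2
    have h3 : ((OK m k l t).card : ℝ) ≤ 1 := by exact_mod_cast h2
    refine h3.trans (Real.one_le_exp (by positivity))

/-- **regularity of the windows for all outer keys of a state** -/
theorem reg_okey (hm : 2 ≤ m) (k : ℕ) : ∃ l0 : ℕ, ∀ l ≥ l0, ∀ h < rL m k l, ∀ K : Finset Key,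
    (∀ x ∈ XJ m k l, ∀ i, ∀ y ∈ Ys m k l h, (Ss m k l h (okey m k l h x)).key i y ∈ K) →
    PrG (Mk m k) K (fun w => ¬ ∀ x ∈ XJ m k l, ∀ B : Finset ℕ,
      (∀ b ∈ B, IsWinB m k l h w (fun t => okey m k l t x) b) →
      RegSet B (QQ m k (sL m k l) h) ((10 ^ 6) ^ (2 * SS m (sL m k l - (h + 1))))
        (Real.sqrt (QQ m k (sL m k l) h)))
      (Real.exp (-(2 * (SS m (sL m k l - h + 1) : ℝ)))) := by
  classical
  have hm0 : 0 < m := by omega
  obtain ⟨l0, h0⟩ := reg_genB hm k
  obtain ⟨l1', h1⟩ := Pool.Agent.Helper27.T5b.exists_bL hm0 k 1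
  refine ⟨max l0 l1', fun l hl h hh K hK => ?_⟩
  have hl0 := (le_max_left _ _).trans hl
  obtain ⟨hbb, hb⟩ := h1 l ((le_max_right _ _).trans hl)
  obtain ⟨g1, g2, g3, g4, g5, g6⟩ := Pool.Agent.Helper27.T5b.rL_bounds hm0 k l
  refine PrG_mono ?_ ?_ (h0 l hl0 h hh (OK m k l h) K ?_)
  · intro r _ hn h2
    refine hn fun x hx B hB => h2 (fun t => okey m k l t x) ?_ B hB
    exact mem_image_of_mem _ hx
  · have hc := card_OK (k := k) hm hbb (by omega) h
    calc ((OK m k l h).card : ℝ) * Real.exp (-(30 * (SS m (sL m k l - h + 1) : ℝ)))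
        ≤ Real.exp (28 * (SS m (sL m k l - h + 1) : ℝ)) *
          Real.exp (-(30 * (SS m (sL m k l - h + 1) : ℝ))) := by gcongr
      _ = _ := by
          rw [← Real.exp_add]
          congr 1
          ring
  · intro o ho i y hy
    unfold OK at ho
    rw [mem_image] at ho
    obtain ⟨x, hx, rfl⟩ := ho
    exact hK x hx i y hy

end Pool.Agent.Helper45.T5b
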