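import Pool.Agent.Helper45.T5b.Mid4

/-!
# T5b, line 8 (P4) in the form of `Helper3/T5b/MidDefs.lean`
-/

set_option autoImplicit false

namespace Pool.Agent.Helper45.T5b

open Pool.Agent.Helper84.T5b Pool.Agent.Helper37.T5b
open Pool.Agent.Helper3.T5b (GoodM)

/-- **line 8 (P4)** -/
theorem good_restM {m k : ℕ} (hm : 2 ≤ m) (hk : 1 ≤ k) : ∃ l0 : ℕ, ∀ l' l, l0 ≤ l' → l' ≤ l →
    Same m k l' l → ∀ K, keysOf m k l ⊆ K → keysOf m k l' ⊆ K →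
    Pool.Agent.Helper42.T5.Pr.PrLe (Mk m k) K (fun w => ¬ GoodM m k l l' ⌊FE m k l' l⌋₊ w)
      (Real.exp (-(SS m (sL m k l) : ℝ))) := good_rest hm hk

end Pool.Agent.Helper45.T5b
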