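import Pool.Agent.Helper98.S3P.Defs

/-!
# T5b, (S3'): the probability of `GoodT`
-/

set_option autoImplicit false

namespace Pool.Agent.Helper45.T5b

open Finset Pool.Agent.Helper27.T4 Pool.Agent.Helper84.T5b Pool.Agent.Helper37.T5b
open Pool.Agent.Helper5.ET (mask bb)
open Pool.Agent.Helper30.T5b (pz QF QT RT ez NL BP)
open Pool.Agent.Helper39.T5 Pool.Agent.Helper50.T5 Pool.Agent.Helper57.T5
open Pool.Agent.Helper48.T5b (SplitP)
open Pool.Agent.Helper54.T5b (Zo ZU oo oo_okey mem_Zo dvd_Zo isWinB_Zo Skey_mem okey_lt)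
open Pool.Agent.Helper45.T5
open Pool.Agent.Helper22.SL
open Pool.Agent.Helper98.S3P (R0 cap GoodT)

variable {m k l' l : ℕ}

/-- **regularity of the codes of a level for one outer key** -/
theorem regOK_one (hm : 2 ≤ m) (k : ℕ) : ∃ l0 : ℕ, ∀ l ≥ l0, ∀ h < rL m k l,
    ∀ (o : JF → ℕ) (K : Finset Key),
    (∀ i, ∀ y ∈ Ys m k l h, (Ss m k l h o).key i y ∈ K) →
    PrG (Mk m k) K (fun w => ¬ Pool.Agent.Helper41.T5.RegOK (Ys m k l h)
      (fun y => (Ss m k l h o).cd (pz_prime k (sL m k l - h)) (pz_inj k (sL m k l - h)) w y /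
        (Ss m k l h o).F) (NN (pz k (sL m k l - h)) (Ss m k l h o).e)
      (68 * (100 * (SS m (sL m k l - h + 1) : ℝ) * ((pz k (sL m k l - h) 1 : ℝ) +
        pz k (sL m k l - h) 2) ^ 2 * ((1 : ℕ) : ℝ) ^ 2)))
      (Real.exp (-(30 * (SS m (sL m k l - h + 1) : ℝ)))) := by
  have hm0 : 0 < m := by omega
  obtain ⟨t1, h1⟩ := exists_balancedB hm0 k
  obtain ⟨l2', h2'⟩ := Pool.Agent.Helper27.T5b.exists_bL hm0 k t1
  refine ⟨l2', fun l hl h hh o K hK => ?_⟩
  obtain ⟨hbb, hb⟩ := h2' l hl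
  obtain ⟨g1, g2, g3, g4, g5, g6⟩ := Pool.Agent.Helper27.T5b.rL_bounds hm0 k l
  obtain ⟨b0, b1, b2⟩ := h1 (sL m k l - h) (by omega)
  obtain ⟨u, hu⟩ : ∃ u, sL m k l - (h + 1) = u := ⟨_, rfl⟩
  have hu1 : sL m k l - h = u + 1 := by omega
  have hu2 : sL m k l - h + 1 = u + 2 := by omega
  rw [hu2]
  have hWpos : 1 ≤ SS m (u + 2) := SS_pos m _
  have hWr : (1 : ℝ) ≤ SS m (u + 2) := by exact_mod_cast hWpos
  have hreg := Pool.Agent.Helper41.T5.reg_code (Mk := Mk m k) (pz_prime k (sL m k l - h))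
    (pz_ne_two k (sL m k l - h)) (pz_inj k (sL m k l - h)) (Ss m k l h o)
    (Ss_ok (by omega) (by omega) o)
    (fun i => T1 (pz k (sL m k l - h) i) (zf m k (sL m k l - h) i)) K
    (fun i => Pool.Agent.Helper73.T5.sfam_primes (pz_prime k _ i) (pz_ne_two k _ i) _ _
      (fun x hx => mem_T1.1 hx)) hK (Ys m k l h) (Finset.Subset.refl _) 1 le_rfl
    (by rw [one_mul]; exact b0) (by rw [one_mul]; exact b1) (by rw [one_mul]; exact b2)
    (T := 100 * (SS m (u + 2) : ℝ)) (by linarith)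
  have hQ : NN (pz k (sL m k l - h)) (Ss m k l h o).e ≤ (10 ^ 6) ^ SS m (u + 2) := by
    have e1 : NN (pz k (sL m k l - h)) (Ss m k l h o).e = QT m k (sL m k l - h) := rfl
    rw [e1, hu1]
    refine (Pool.Agent.Helper30.T5b.QT_le hm0 k (u + 1)).trans ?_
    refine Nat.pow_le_pow_right (by norm_num) ?_
    exact (Sg_le m (u + 1)).trans (SS_mono m (by omega))
  exact PrG_mono (fun _ _ h => h) (reg_fail hQ hWpos) hreg

/-- the quotients of an arc -/
theorem arc_div {J a L c : ℕ} (hJ : 0 < J) (h1 : a ≤ J * c) (h2 : J * c < a + L) :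
    (a + J - 1) / J ≤ c ∧ c < (a + J - 1) / J + (L / J + 1) := by
  constructor
  · rw [Nat.div_le_iff_le_mul_add_pred hJ]
    omega
  · have e2 : a ≤ J * ((a + J - 1) / J) := by
      have := Nat.div_add_mod (a + J - 1) J
      have h3 := Nat.mod_lt (a + J - 1) hJ
      omega
    have e3 : L < J * (L / J + 1) := by
      have := Nat.div_add_mod L J
      have h3 := Nat.mod_lt L hJ
      rw [mul_add, mul_one]
      omega
    refine Nat.lt_of_mul_lt_mul_left (a := J) ?_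
    rw [mul_add]
    omega

theorem arc_num {J L : ℕ} {R w : ℝ} (hR : 0 ≤ R) (hw : 0 < w) :
    R * (1 + ((L / J + 1 : ℕ) : ℝ) / w) ≤ R * (1 + ((L : ℝ) / J + 1) / w) := by
  have e1 : ((L / J : ℕ) : ℝ) ≤ (L : ℝ) / J := Nat.cast_div_le
  push_cast
  gcongr

/-- the arc bound for multiples of `J` -/
theorem arc_of_regSet {Z : Finset ℕ} {J Q : ℕ} {R w : ℝ} (hJ : 0 < J) (hR : 0 ≤ R) (hw : 0 < w)
    (hd : ∀ b ∈ Z, J ∣ b) (h : RegSet (Z.image (fun b => b / J)) Q R w) (a L : ℕ) :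
    ((Z.filter (fun b => a ≤ b ∧ b < a + L)).card : ℝ) ≤ R * (1 + ((L : ℝ) / J + 1) / w) := by
  have h1 := h.arc ((a + J - 1) / J) (L / J + 1)
  have h2 : (Z.filter (fun b => a ≤ b ∧ b < a + L)).card ≤
      ((Z.image (fun b => b / J)).filter (fun β => (a + J - 1) / J ≤ β ∧
        β < (a + J - 1) / J + (L / J + 1))).card := by
    refine card_le_card_of_injOn (fun b => b / J) ?_ ?_
    · intro b hb
      rw [mem_coe, mem_filter] at hb
      obtain ⟨hb1, hb2, hb3⟩ := hb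
      rw [mem_coe, mem_filter]
      have e1 : J * (b / J) = b := Nat.mul_div_cancel' (hd b hb1)
      have e2 := arc_div (a := a) (L := L) (c := b / J) hJ (by rw [e1]; exact hb2)
        (by rw [e1]; exact hb3)
      exact ⟨mem_image_of_mem _ hb1, e2⟩
    · intro b hb b' hb' hbb
      rw [mem_coe, mem_filter] at hb hb'
      have e1 := Nat.mul_div_cancel' (hd b hb.1)
      have e2 := Nat.mul_div_cancel' (hd b' hb'.1)
      have e3 : b / J = b' / J := hbb
      rw [← e1, ← e2, e3]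
  exact ((Nat.cast_le.2 h2).trans h1).trans (arc_num hR hw)

/-- the codes of the newborn level in arcs -/
theorem new_of_regOK {o : JF → ℕ} {w : Key → ℕ} {R : ℝ} (hR : 0 ≤ R)
    (h : Pool.Agent.Helper41.T5.RegOK (Ys m k l 0)
      (fun y => (Ss m k l 0 o).cd (pz_prime k (sL m k l - 0)) (pz_inj k (sL m k l - 0)) w y /
        (Ss m k l 0 o).F) (NN (pz k (sL m k l - 0)) (Ss m k l 0 o).e) R) (a L : ℕ) :
    (((Ys m k l 0).filter (fun y =>
      a ≤ cs m k l 0 w o y ∧ cs m k l 0 w o y < a + L)).card : ℝ) ≤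
      R * (1 + ((L : ℝ) / FF m k l 1 + 1) / Real.sqrt (QT m k (sL m k l))) := by
  have hF : 0 < FF m k l 1 := FF_pos m k l 1
  have hFe : (Ss m k l 0 o).F = FF m k l 1 := by
    show FF m k l (0 + 1) * LL (QQ m k (sL m k l)) 0 = FF m k l 1
    rw [LL_zero, mul_one]
  have hcs : ∀ y, FF m k l 1 * ((Ss m k l 0 o).cd (pz_prime k (sL m k l - 0))
      (pz_inj k (sL m k l - 0)) w y / (Ss m k l 0 o).F) = cs m k l 0 w o y := by
    intro y
    have h1 := cs_dvd m k l 0 w o y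
    rw [LL_zero, mul_one] at h1
    rw [hFe]
    exact Nat.mul_div_cancel' h1
  have h1 := h 1 one_pos (Nat.coprime_one_left _) ((a + FF m k l 1 - 1) / FF m k l 1)
    (L / FF m k l 1 + 1) 0
  rw [Nat.cast_one, one_mul] at h1
  have hQ : (NN (pz k (sL m k l - 0)) (Ss m k l 0 o).e) = QT m k (sL m k l) := rfl
  rw [hQ] at h1
  have hw : 0 < Real.sqrt (QT m k (sL m k l)) := Real.sqrt_pos.2 (by
    exact_mod_cast Pool.Agent.Helper30.T5b.QT_pos m k (sL m k l))
  refine le_trans ?_ (h1.trans (arc_num hR hw))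
  rw [Nat.cast_le]
  refine card_le_card ?_
  intro y hy
  rw [mem_filter] at hy ⊢
  obtain ⟨hy1, hy2, hy3⟩ := hy
  rw [← hcs y] at hy2 hy3
  have e2 := arc_div hF hy2 hy3
  exact ⟨hy1, e2.1, e2.2, by rw [Nat.mod_one, Nat.mod_one]⟩

theorem R0_ge (m k l : ℕ) : 68 * (100 * (SS m (sL m k l - 0 + 1) : ℝ) *
    ((pz k (sL m k l - 0) 1 : ℝ) + pz k (sL m k l - 0) 2) ^ 2 * ((1 : ℕ) : ℝ) ^ 2) ≤
      R0 m k l := by
  unfold R0
  rw [Nat.sub_zero, Nat.cast_one, one_pow, mul_one]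
  have hP : ((pz k (sL m k l) 1 : ℝ) + pz k (sL m k l) 2) ^ 2 ≤ 4 * (BP k : ℝ) ^ 2 := by
    have a1 : (pz k (sL m k l) 1 : ℝ) ≤ BP k := by
      exact_mod_cast Pool.Agent.Helper30.T5b.pz_le k (sL m k l) 1
    have a2 : (pz k (sL m k l) 2 : ℝ) ≤ BP k := by
      exact_mod_cast Pool.Agent.Helper30.T5b.pz_le k (sL m k l) 2
    have a3 : (0 : ℝ) ≤ pz k (sL m k l) 1 := Nat.cast_nonneg _
    have a4 : (0 : ℝ) ≤ pz k (sL m k l) 2 := Nat.cast_nonneg _
    nlinarith
  calc 68 * (100 * (SS m (sL m k l + 1) : ℝ) *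
      ((pz k (sL m k l) 1 : ℝ) + pz k (sL m k l) 2) ^ 2)
      ≤ 68 * (100 * (SS m (sL m k l + 1) : ℝ) * (4 * (BP k : ℝ) ^ 2)) := by gcongr
    _ = _ := by ring

/-- the windows of a state in arcs -/
theorem Zo_arc (hm : 0 < m) {h : ℕ} (hh : h ≤ rL m k l) {w : Key → ℕ} {o : ℕ → JF → ℕ}
    {o0 : JF → ℕ} {R v : ℝ} (hR : 0 ≤ R) (hv : 0 < v) {Q : ℕ}
    (ho : ∀ t, h ≤ t → t < rL m k l → o t = oo o0 t)
    (hg : ∀ B : Finset ℕ, (∀ b ∈ B, IsWinB m k l h w o b) →
      RegSet B Q R v) (a L : ℕ) :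
    (((Zo m k l h w o0).filter (fun b => a ≤ b ∧ b < a + L)).card : ℝ) ≤
      R * (1 + ((L : ℝ) / ((Jn m k (sL m k l) l * LL (QQ m k (sL m k l)) h : ℕ) : ℝ) + 1) /
        v) := by
  have hJ : 0 < Jn m k (sL m k l) l * LL (QQ m k (sL m k l)) h :=
    Nat.mul_pos (Jn_pos _ _ _ _) (LQ_pos _ _ _ _)
  have hd : ∀ b ∈ Zo m k l h w o0, Jn m k (sL m k l) l * LL (QQ m k (sL m k l)) h ∣ b :=
    fun b hb => dvd_Zo hm hh hb
  refine arc_of_regSet hJ hR hv hd (hg _ ?_) a L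
  intro β hβ
  rw [mem_image] at hβ
  obtain ⟨b, hb, rfl⟩ := hβ
  have hdb := Nat.mul_div_cancel' (hd b hb)
  obtain ⟨y, hy, u, hu, h1⟩ := mem_Zo.1 hb
  refine ⟨y, hy, u, hu, ?_⟩
  rw [hdb, h1]
  congr 1
  refine Finset.sum_congr rfl (fun t ht => ?_)
  rw [mem_Ico] at ht
  rw [ho t ht.1 ht.2]

/-- **the probability of `GoodT`** -/
theorem goodT_pr (hm : 2 ≤ m) {k : ℕ} (hk : 1 ≤ k) : ∃ l0 : ℕ, ∀ l' l, l0 ≤ l' → l' ≤ l →
    SplitP m k (sL m k l') l' l → ∀ K : Finset Key, keysOf m k l ⊆ K → keysOf m k l' ⊆ K →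
    PrG (Mk m k) K (fun w => ¬ GoodT m k l' l w)
      (3 * Real.exp (-(2 * (SS m (sL m k l) : ℝ)))) := by
  classical
  have hm0 : 0 < m := by omega
  obtain ⟨la, ha⟩ := regOK_one hm k
  obtain ⟨lb, hb⟩ := reg_okey hm k
  obtain ⟨lc, hc⟩ := Pool.Agent.Helper27.T5b.exists_bL hm0 k 1
  obtain ⟨ld, hd⟩ := reg_genB hm k
  refine ⟨la + lb + lc + ld, fun l' l hl' hll hP K hK hK' => ?_⟩
  obtain ⟨hbb, hbl⟩ := hc l (by omega)
  obtain ⟨hbb', hbl'⟩ := hc l' (by omega)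
  have hr1 := hP.rL1
  have hr' := hP.rL'
  have hs1 := hP.s1
  have hrb := Pool.Agent.Helper27.T5b.rL_bounds hm0 k l
  have hrb' := Pool.Agent.Helper27.T5b.rL_bounds hm0 k l'
  -- level `0` of `l`
  have p1 : PrG (Mk m k) K (fun w => ∃ o ∈ OK m k l 0, ¬ Pool.Agent.Helper41.T5.RegOK
      (Ys m k l 0) (fun y => (Ss m k l 0 o).cd (pz_prime k (sL m k l - 0))
        (pz_inj k (sL m k l - 0)) w y / (Ss m k l 0 o).F)
      (NN (pz k (sL m k l - 0)) (Ss m k l 0 o).e)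
      (68 * (100 * (SS m (sL m k l - 0 + 1) : ℝ) * ((pz k (sL m k l - 0) 1 : ℝ) +
        pz k (sL m k l - 0) 2) ^ 2 * ((1 : ℕ) : ℝ) ^ 2)))
      (Real.exp (-(2 * (SS m (sL m k l) : ℝ)))) := by
    refine PrG_mono (fun _ _ h => h) ?_ (PrG_exists (OK m k l 0) (fun o ho =>
      ha l (by omega) 0 (by omega) o K (fun i y hy => ?_)))
    · rw [Finset.sum_const, nsmul_eq_mul]
      have h1 := card_OK (k := k) hm hbb (by omega) 0
      have h2 : (SS m (sL m k l) : ℝ) ≤ SS m (sL m k l - 0 + 1) := by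
        exact_mod_cast SS_mono m (by omega)
      calc ((OK m k l 0).card : ℝ) * Real.exp (-(30 * (SS m (sL m k l - 0 + 1) : ℝ)))
          ≤ Real.exp (28 * (SS m (sL m k l - 0 + 1) : ℝ)) *
            Real.exp (-(30 * (SS m (sL m k l - 0 + 1) : ℝ))) := by gcongr
        _ = Real.exp (-(2 * (SS m (sL m k l - 0 + 1) : ℝ))) := by
            rw [← Real.exp_add]
            congr 1
            ring
        _ ≤ _ := Real.exp_le_exp.2 (by linarith)
    · unfold OK at ho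
      rw [mem_image] at ho
      obtain ⟨x, hx, rfl⟩ := ho
      exact hK (Skey_mem hm0 hbb (by omega) (okey_lt hm0 hbb hx 0) hy i)
  -- level `1` of `l`
  have p2 := hd l (by omega) 1 (by omega) {0} K (fun o ho i y hy => by
    rw [mem_singleton] at ho
    rw [ho]
    exact hK (Skey_mem hm0 hbb (by omega) (fun _ => Pool.Agent.Helper54.T5b.Bd_pos m k l) hy i))
  -- level `0` of `l'`
  have p3 := hb l' (by omega) 0 (by omega) K (fun x hx i y hy =>
    hK' (Skey_mem hm0 hbb' (by omega) (okey_lt hm0 hbb' hx 0) hy i))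
  have e2 : sL m k l - 1 + 1 = sL m k l := by omega
  have e3 : sL m k l' - 0 + 1 = sL m k l := by omega
  rw [e2, card_singleton, Nat.cast_one, one_mul] at p2
  rw [e3] at p3
  have hpos : (0 : ℝ) ≤ SS m (sL m k l) := Nat.cast_nonneg _
  have e7 : Real.exp (-(30 * (SS m (sL m k l) : ℝ))) ≤
      Real.exp (-(2 * (SS m (sL m k l) : ℝ))) := Real.exp_le_exp.2 (by linarith)
  refine PrG_mono ?_ ?_ (PrG_or p1 (PrG_or p2 p3))
  · intro r _ hn
    by_contra hcon
    push Not at hcon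
    obtain ⟨c1, c2, c3⟩ := hcon
    refine hn ⟨?_, ?_, ?_⟩
    · intro o ho a L
      have h1 := new_of_regOK (by positivity) (c1 o ho) a L
      refine h1.trans ?_
      have h2 : (0 : ℝ) ≤ 1 + ((L : ℝ) / FF m k l 1 + 1) / Real.sqrt (QT m k (sL m k l)) := by
        positivity
      exact mul_le_mul_of_nonneg_right (R0_ge m k l) h2
    · intro a L
      have hv : 0 < Real.sqrt (QQ m k (sL m k l) 1 : ℕ) := Real.sqrt_pos.2 (by
        exact_mod_cast QQ_pos m k (sL m k l) 1)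
      have h1 := Zo_arc (o0 := 0) hm0 (h := 1) (by omega) (by positivity) hv
        (fun t ht1 ht2 => by
          unfold oo
          rw [if_neg (by omega)]) (c2 (fun _ => 0) (mem_singleton_self _)) a L
      have e4 : QQ m k (sL m k l) 1 = QT m k (sL m k l') := by
        show QT m k (sL m k l - 1) = _
        congr 1
        omega
      have e5 : LL (QQ m k (sL m k l)) 1 = QT m k (sL m k l) := by
        rw [show (1 : ℕ) = 0 + 1 from rfl, LL_succ, LL_zero, one_mul]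
        rfl
      have e6 : sL m k l - (1 + 1) = sL m k l' - 1 := by omega
      rw [e4, e5, e6] at h1
      push_cast at h1
      exact h1
    · intro o ho a L
      unfold OK at ho
      rw [mem_image] at ho
      obtain ⟨x, hx, rfl⟩ := ho
      have hv : 0 < Real.sqrt (QQ m k (sL m k l') 0 : ℕ) := Real.sqrt_pos.2 (by
        exact_mod_cast QQ_pos m k (sL m k l') 0)
      have h1 := Zo_arc (o0 := okey m k l' 0 x) hm0 (h := 0) (by omega) (by positivity) hv
        (fun t _ _ => (oo_okey m k l' x t).symm) (c3 x hx) a L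
      have e4 : QQ m k (sL m k l') 0 = QT m k (sL m k l') := rfl
      have e6 : sL m k l' - (0 + 1) = sL m k l' - 1 := by omega
      rw [e4, e6, LL_zero, mul_one] at h1
      exact h1
  · linarith

end Pool.Agent.Helper45.T5b
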