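import Pool.Agent.Helper21.T5b.SZStmts
import Pool.Agent.Helper45.T5b.S7A

/-!
# T5b, CaseSplitInj, line W: regular windows
-/

set_option autoImplicit false

namespace Pool.Agent.Helper45.T5b

open Finset Pool.Agent.Helper27.T4
open Pool.Agent.Helper37.T5b
open Pool.Agent.Helper30.T5b hiding pz_prime pz_inj NL_pos
open Pool.Agent.Helper22.HW Pool.Agent.Helper22.SL Pool.Agent.Helper57.T5
open Pool.Agent.Helper39.T5 Pool.Agent.Helper84.T5b
open Pool.Agent.Helper87.SL (NumL)
open Pool.Agent.Helper21.T5b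
open Pool.Agent.Helper63.T5b (exists_lateN KG lg NumX)
open Pool.Agent.Helper22.NEARb (wW RegE)
open Pool.Agent.Helper63.T5 (lam lam_gt lam_lt)

variable {m k s l' l : ℕ}

/-- the numbers of the last level of the block with the changed front -/
theorem pz_numL {h : ℕ} {o : JF → ℕ} {D : ℝ} {w s s' : ℕ → ℝ} {K : ℝ}
    (hX : NumX (PW m k h l' l o) D w s s' K) {u : ℕ} (hu : h = u + 1) :
    NumL (PZ m k h l' l o) D (w h) (w u) (s h) (s' h) K where
  D0 := hX.D0
  M := hX.M
  M'0 := hX.M'0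
  F := by
    have h1 := hX.F h le_rfl
    have e : (PZ m k h l' l o).F h = (PW m k h l' l o).F h := by
      show (if h = 0 then _ else _) = _
      rw [if_neg (by omega)]
      rfl
    show ((PZ m k h l' l o).F h : ℝ) = _
    rw [e]
    exact h1
  F' := by
    have h1 := hX.F' h le_rfl
    have e : (PZ m k h l' l o).F' h = (PW m k h l' l o).F' h := by
      show (if h = 0 then _ else _) = _
      rw [if_neg (by omega)]
      rfl
    show ((PZ m k h l' l o).F' h : ℝ) = _
    rw [e]
    exact h1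
  sl := hX.sl h le_rfl
  su := hX.su h le_rfl
  sl' := hX.sl' h le_rfl
  su' := hX.su' h le_rfl
  q2 := by
    intro u' hu'
    have hu'' : h = u' + 1 := hu'
    have e : u' = u := by omega
    subst e
    exact hX.q2 u' (show u' < h by omega)
  deep := by
    have := hX.deep u (show u < h by omega)
    rwa [← hu] at this
  w0 := hX.w_nonneg (r := h) le_rfl
  Dl := hX.Dl u (show u < h by omega)
  K1 := hX.K1
  A := hX.A h le_rfl

theorem CZ_le (m k l' l : ℕ) : CZ m k l' l ≤ (2 * BP k) ^ 10 := by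
  unfold CZ
  have h1 : (Pool.Agent.Helper98.T5b.M0 m k l' l).C = ∏ i : JF, (2 * (pJ k (sL m k l) i - 1)) := rfl
  have h2 : (Pool.Agent.Helper98.T5b.M0 m k l' l).C ≤ (2 * BP k) ^ 7 := by
    rw [h1]
    refine (Finset.prod_le_pow_card _ _ (2 * BP k) (fun i _ => ?_)).trans (le_of_eq ?_)
    · have : pJ k (sL m k l) i ≤ BP k := by
        rcases i with f | i
        · exact pr_le_BP k f
        · refine Fin.cases ?_ (fun f => ?_) i
          · exact (buf_lt_BP k).le
          · exact pz_le k (sL m k l + 1) f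
      omega
    · have e : Fintype.card JF = 7 := by
        rw [Fintype.card_sum, Fintype.card_fin, Fintype.card_fin]
      rw [Finset.card_univ, e]
  have h3 : ∏ f, (2 * (pz k (sL m k l) f - 1)) ≤ (2 * BP k) ^ 3 := by
    refine (Finset.prod_le_pow_card _ _ (2 * BP k) (fun i _ => ?_)).trans (le_of_eq ?_)
    · have := pz_le k (sL m k l) i
      omega
    · rw [Finset.card_univ, Fintype.card_fin]
  calc _ ≤ (2 * BP k) ^ 7 * (2 * BP k) ^ 3 := Nat.mul_le_mul h2 h3
    _ = _ := by ring

theorem LZn_eq (m k l' l : ℕ) : LZn m k l' l l' =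
    CZ m k l' l * Pool.Agent.Helper44.T5b.IJ m k l l' := by
  unfold LZn
  congr 1
  unfold Pool.Agent.Helper44.T5b.IJ
  refine Finset.prod_congr rfl fun i _ => ?_
  congr 1
  unfold Pool.Agent.Helper44.T5b.uJ
  omega

/-- the number of labels in logarithms -/
theorem LZn_le (hm : 0 < m) (h : SZ m k s l' l) : (LZn m k l' l l' : ℝ) ≤
    ((2 * BP k : ℕ) : ℝ) ^ 10 * Real.exp ((lg m k l - lg m k l') / 2) := by
  have hll := h.lt.le
  have hs := h.sl
  rw [LZn_eq]
  push_cast
  have h1 : (CZ m k l' l : ℝ) ≤ ((2 * BP k : ℕ) : ℝ) ^ 10 := by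
    exact_mod_cast CZ_le m k l' l
  have h2 := Pool.Agent.Helper63.T5b.IJ_le_gen hs hll
    (h.cpl hm hll (Nat.le_add_right _ _))
    (h.cpl hm le_rfl (hll.trans (Nat.le_add_right _ _)))
  push_cast at h1
  exact mul_le_mul h1 h2 (Nat.cast_nonneg _) (by positivity)

/-- **line W** -/
theorem ppI {m k : ℕ} (hm : 2 ≤ m) (hk : 2 ≤ k) : PpI m k := by
  have hm0 : 0 < m := by omega
  have hBP : (0 : ℝ) < ((2 * BP k : ℕ) : ℝ) ^ 10 := by
    have : 0 < BP k := Pool.Agent.Helper30.T5b.BP_pos k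
    positivity
  obtain ⟨l1, h1⟩ := exists_lateN hm k 0
  obtain ⟨l2, h2⟩ := pp_regA hm k (K := KG k) hBP
  refine ⟨max l1 l2, fun s l' l hl' h w hR hR' o J X hJ hX => ?_⟩
  have hL := h1 l' ((le_max_left _ _).trans hl')
  have hh1 := one_le_hz m s l' l
  have hh2 := hz_le_two m s l' l
  have hs := h.sl
  have hr1 := h.P.rL1
  have hks := h.P.ks
  obtain ⟨u, hu⟩ : ∃ u, hz m s l' l = u + 1 := ⟨hz m s l' l - 1, by omega⟩
  have hNX := h.numX hm0 hk o hL
  have hNL := pz_numL hNX hu
  have hw : wW m k l (sz m s l' l) = SS m (s - hz m s l' l) := by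
    unfold wW
    congr 1
    rw [hs]
    show s + 1 - (1 + hz m s l' l) = s - hz m s l' l
    omega
  have e1 : dZ m s l' l = (wW m k l (sz m s l' l) : ℝ) / 200 := by
    unfold dZ
    rw [hw]
  rw [e1]
  have hsb : sz m s l' l - 1 = hz m s l' l := by
    show 1 + hz m s l' l - 1 = _
    omega
  have key := h2 l' l ((le_max_right _ _).trans hl') h.lt.le h.near h.split (sz m s l' l)
    (by show 2 ≤ 1 + hz m s l' l; omega) (by show 1 + hz m s l' l ≤ _; omega)
    (by rw [hw]; exact h.hz_spec hm0 hk) w hR (by rw [hsb]; exact hR') Key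
    (PZ m k (hz m s l' l) l' l o) (Mk m k) J X (IrZ m k l' l) _ _ _
    (by rw [hw]; exact hNL) (h.ok hm0 hk o hL) hX hh1 rfl ?_ ?_
  · rw [hsb] at key
    exact key
  · show (if hz m s l' l = 0 then _ else _) = _
    rw [if_neg (by omega)]
    rfl
  · refine le_trans ?_ (LZn_le hm0 h)
    exact_mod_cast hJ

end Pool.Agent.Helper45.T5b
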